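import Pool.Agent.helper25.P3.Final

set_option autoImplicit false

/-!
# MP_49b0db_co: the paving matroids whose circuits form a Hilbert basis
-/

open Pool.Agent.helper9.HB49

/-- Let `M` be a finite paving matroid of rank `r` on `n` elements (every circuit has at least `r`
elements). The circuits of `M` form a Hilbert basis iff `n ≤ r + 2`, or `r ≤ 3` and `M` is binary,
or the circuits of `M` are the `(r + 1)`-sets, or the `r`-sets avoiding one element, or the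
`r`-sets avoiding two elements `y`, `z` together with the `(r + 1)`-sets containing `y` and `z`,
or `M` consists of two disjoint lines in a plane, or the circuits are the complements of the lines
of `AG(2, 3)`, or the complements of the lines of `PG(2, 2)`, or the complements of the planes of
`AG(3, 2)`, or the complements of the lines of `PG(3, 2)`, or the complements of the planes of
`AG(4, 2)`. -/
theorem Pool.Agent.Results.MP_49b0db_co.AllPaving.result {α : Type*} (M : Matroid α)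
    [M.Finite] (r : ℕ) (hrank : M.eRank = r) (hpav : ∀ C, M.IsCircuit C → r ≤ C.ncard) :
    CircuitsHilbert M ↔
      M.E.ncard ≤ r + 2 ∨
      (r ≤ 3 ∧ ∀ C K, M.IsCircuit C → M.IsCocircuit K → Even (C ∩ K).ncard) ∨
      (∀ C, M.IsCircuit C ↔ C ⊆ M.E ∧ C.ncard = r + 1) ∨
      (∃ e ∈ M.E, ∀ C, M.IsCircuit C ↔ C ⊆ M.E \ {e} ∧ C.ncard = r) ∨
      (∃ y ∈ M.E, ∃ z ∈ M.E, y ≠ z ∧ ∀ C, M.IsCircuit C ↔
        (C ⊆ M.E \ {y, z} ∧ C.ncard = r) ∨ (C ⊆ M.E ∧ y ∈ C ∧ z ∈ C ∧ C.ncard = r + 1)) ∨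
      (∃ L Q : Set α, Disjoint L Q ∧ L ∪ Q = M.E ∧ 3 ≤ L.ncard ∧ 2 ≤ Q.ncard ∧
        ∀ C, M.IsCircuit C ↔ C ⊆ M.E ∧ ((C ⊆ L ∧ C.ncard = 3) ∨ (C ⊆ Q ∧ C.ncard = 3) ∨
          ((C ∩ L).ncard = 2 ∧ (C ∩ Q).ncard = 2))) ∨
      (∃ f : α → (Fin 2 → ZMod 3), Set.BijOn f M.E Set.univ ∧ ∀ C, M.IsCircuit C ↔
        ∃ p q, p ≠ q ∧ C = {x ∈ M.E | f x ≠ p ∧ f x ≠ q ∧ f x ≠ - p - q}) ∨
      (∃ f : α → (Fin 3 → ZMod 2), Set.BijOn f M.E {v | v ≠ 0} ∧ ∀ C, M.IsCircuit C ↔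
        ∃ p q, p ≠ 0 ∧ q ≠ 0 ∧ p ≠ q ∧ C = {x ∈ M.E | f x ≠ p ∧ f x ≠ q ∧ f x ≠ p + q}) ∨
      (∃ f : α → (Fin 3 → ZMod 2), Set.BijOn f M.E Set.univ ∧ ∀ C, M.IsCircuit C ↔
        ∃ p q s, p ≠ q ∧ p ≠ s ∧ q ≠ s ∧
          C = {x ∈ M.E | f x ≠ p ∧ f x ≠ q ∧ f x ≠ s ∧ f x ≠ p + q + s}) ∨
      (∃ f : α → (Fin 4 → ZMod 2), Set.BijOn f M.E {v | v ≠ 0} ∧ ∀ C, M.IsCircuit C ↔
        ∃ p q, p ≠ 0 ∧ q ≠ 0 ∧ p ≠ q ∧ C = {x ∈ M.E | f x ≠ p ∧ f x ≠ q ∧ f x ≠ p + q}) ∨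
      (∃ f : α → (Fin 4 → ZMod 2), Set.BijOn f M.E Set.univ ∧ ∀ C, M.IsCircuit C ↔
        ∃ p q s, p ≠ q ∧ p ≠ s ∧ q ≠ s ∧
          C = {x ∈ M.E | f x ≠ p ∧ f x ≠ q ∧ f x ≠ s ∧ f x ≠ p + q + s}) :=
  Pool.Agent.helper25.P3.main_all ⟨hrank, hpav⟩
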