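import Pool.Agent.helper9.HB49.Main

set_option autoImplicit false

/-!
# MP_49b0db_co: nonbinary connected matroids of rank at most three whose circuits form a
Hilbert basis
-/

open Pool.Agent.helper9.HB49

/-- A connected nonbinary finite matroid of rank at most three has circuits forming a Hilbert
basis iff it is uniform, or two disjoint lines in a plane, or a line, a point and a class of
parallel elements in a plane. -/
theorem Pool.Agent.Results.MP_49b0db_co.RankThree.result {α : Type*} (M : Matroid α) [M.Finite]
    (hrank : M.eRank ≤ 3) (hconn : Connected M) (hnb : ¬ Binary M) :
    CircuitsHilbert M ↔ UniformType M ∨ TwoLines M ∨ LinePointClass M :=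
  classification hrank hconn hnb
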