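import Pool.Agent.helper9.HB49.Big.Final

set_option autoImplicit false

/-!
# MP_49b0db_co: three-connected matroids with a large uniform restriction (in particular the
three-connected matroids of rank `r` with at least `2 ^ (r ^ 2)` elements) whose circuits form a
Hilbert basis
-/

open Pool.Agent.helper9.HB49

/-- Let `M` be a finite 3-connected matroid such that some restriction of `M` is a uniform matroid
of rank `k ≥ 2` on at least `max (k + 2) (2 k - 1)` elements, or `M` has rank `r ≥ 2` and at least
`2 ^ (r ^ 2)` elements. Then the circuits of `M` form a Hilbert basis iff `M` is uniform. -/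
theorem Pool.Agent.Results.MP_49b0db_co.ThreeConnected.result {α : Type*} (M : Matroid α)
    [M.Finite] (h3 : ThreeConnected M)
    (hU : (∃ (k : ℕ) (A : Set α), 2 ≤ k ∧ A ⊆ M.E ∧ k + 2 ≤ A.ncard ∧ 2 * k ≤ A.ncard + 1 ∧
        ∀ I ⊆ A, (M.Indep I ↔ I.ncard ≤ k)) ∨
      ∃ r : ℕ, 2 ≤ r ∧ M.eRank = r ∧ 2 ^ (r ^ 2) ≤ M.E.ncard) :
    CircuitsHilbert M ↔ UniformType M :=
  three_connected h3 hU
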